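import Pool.Agent.NewtonCov.Red
import Pool.Agent.NewtonCov.Vol
import Pool.Agent.NewtonCov.Den
import Pool.Agent.NewtonCov.Slab
import Pool.Agent.NewtonCov.Tal
import Pool.Agent.NewtonCov.Pz
import Pool.Agent.NewtonCov.Tail
import Pool.Agent.NewtonCov.Row
import Pool.Agent.NewtonCov.Far
import Pool.Agent.NewtonCov.L1
import Pool.Agent.NewtonCov.Fib
import Pool.Agent.NewtonCov.Near
import Pool.Agent.NewtonCov.Same
import Pool.Agent.NewtonCov.Cx
import Pool.Agent.NewtonCov.Cnt
import Pool.Agent.NewtonCov.Ev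
import Pool.Agent.NewtonCov.Comb
import Pool.Agent.NewtonCov.Main
import Pool.Agent.Lib_helper88.Newton.Upper

/-!
Problem MP_a2070a_co: the Newton covering number of the `d`-dimensional unit cube is asymptotic to
the dimension `d`.
-/

set_option autoImplicit false

namespace Pool.Agent.Results.MP_a2070a_co.Asymptotic

open Pool.Agent.Newton Filter

/-- For every `ε > 0` and all large `d`, no `n ≤ (1 - ε) d` congruent copies of the unit cube cover
a neighbourhood of the unit cube. -/
theorem lower : Pool.Agent.NC.S_MAIN := by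
  have hslab := Pool.Agent.NC.slab Pool.Agent.NC.den
  exact Pool.Agent.NC.main_thm Pool.Agent.NC.red Pool.Agent.NC.vol
    (Pool.Agent.NC.far Pool.Agent.NC.tal
      (Pool.Agent.NC.row (Pool.Agent.NC.tail Pool.Agent.NC.pz)) Pool.Agent.NC.vol)
    (Pool.Agent.NC.near Pool.Agent.NC.l1 Pool.Agent.NC.fib hslab Pool.Agent.NC.vol)
    (Pool.Agent.NC.same hslab Pool.Agent.NC.vol)
    (Pool.Agent.NC.comb Pool.Agent.NC.cx
      (Pool.Agent.NC.ev Pool.Agent.NC.cnt Pool.Agent.NC.exm) Pool.Agent.NC.gr)

/-- The Newton covering number of the `d`-dimensional unit cube, divided by `d`, tends to `1`. -/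
theorem result : Tendsto (fun d : ℕ => (newton d : ℝ) / d) atTop (nhds 1) := by
  rw [Metric.tendsto_atTop]
  intro ε hε
  obtain ⟨d₀, hd₀⟩ := lower (ε / 2) (by linarith)
  obtain ⟨d₁, hd₁⟩ := exists_nat_gt (1 / ε)
  refine ⟨max d₀ (max d₁ 1), fun d hd => ?_⟩
  have h0 : d₀ ≤ d := (le_max_left _ _).trans hd
  have h1 : d₁ ≤ d := (le_max_left _ _).trans ((le_max_right _ _).trans hd)
  have h2 : 1 ≤ d := (le_max_right _ _).trans ((le_max_right _ _).trans hd)
  have hdpos : (0 : ℝ) < d := by exact_mod_cast h2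
  have hcov : Covers d (newton d) := Nat.sInf_mem (s := {n | Covers d n}) ⟨d + 1, covers_succ d⟩
  have hlow : (1 - ε / 2) * d < newton d := by
    by_contra hcon
    exact hd₀ d h0 (newton d) (not_lt.mp hcon) hcov
  have hup : (newton d : ℝ) ≤ d + 1 := by
    have : newton d ≤ d + 1 := Nat.sInf_le (covers_succ d)
    exact_mod_cast this
  have hd1 : 1 / ε < d := lt_of_lt_of_le hd₁ (by exact_mod_cast h1)
  have hεd : 1 < ε * d := by
    rw [div_lt_iff₀ hε] at hd1
    linarith
  rw [Real.dist_eq, abs_lt]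
  constructor
  · have h3 : 1 - ε / 2 < (newton d : ℝ) / d := (lt_div_iff₀ hdpos).mpr hlow
    linarith
  · have h3 : (newton d : ℝ) / d < 1 + ε := by
      rw [div_lt_iff₀ hdpos]
      nlinarith
    linarith

end Pool.Agent.Results.MP_a2070a_co.Asymptotic
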