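import Pool.Agent.Lib_helper88.Newton.Lower

/-!
Problem MP_a2070a_co: the Newton covering number of the `d`-dimensional unit cube is at least three
for `d ≥ 2`, with equality for `d = 2`.
-/

namespace Pool.Agent.Results.MP_a2070a_co.LowerBound

open Pool.Agent.Newton

/-- For `d ≥ 2`, no two congruent copies of the unit cube cover a neighbourhood of it, so the Newton
covering number is at least three; for the square it is equal to three. -/
theorem result : (∀ d, 2 ≤ d → ¬ Covers d 2 ∧ 3 ≤ newton d) ∧ newton 2 = 3 := by
  have h : ∀ d, 2 ≤ d → ¬ Covers d 2 ∧ 3 ≤ newton d := by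
    intro d hd
    refine ⟨not_covers_two hd, ?_⟩
    by_contra hlt
    have h1 : Covers d (newton d) := Nat.sInf_mem (s := {n | Covers d n}) ⟨d + 1, covers_succ d⟩
    exact not_covers_two hd (covers_mono (by omega) h1)
  exact ⟨h, le_antisymm (Nat.sInf_le (covers_succ 2)) (h 2 le_rfl).2⟩

end Pool.Agent.Results.MP_a2070a_co.LowerBound
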