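import Pool.Agent.Lib_helper88.Newton.Upper

/-!
Problem MP_a2070a_co: the Newton covering number of the `d`-dimensional unit cube is at most `d + 1`.
-/

namespace Pool.Agent.Results.MP_a2070a_co.UpperBound

open Pool.Agent.Newton

/-- For every `d`, some `d + 1` congruent copies of the unit cube cover a neighbourhood of it. -/
theorem result (d : ℕ) : Covers d (d + 1) ∧ newton d ≤ d + 1 :=
  ⟨covers_succ d, Nat.sInf_le (covers_succ d)⟩

end Pool.Agent.Results.MP_a2070a_co.UpperBound
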